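import Pool.Agent.L7h59.NC.Def

/-!
# Project NC, part GRN
-/

set_option autoImplicit false

namespace Pool.Agent.L7h25.NC

open Pool.Agent.L7h59.NC

/-- the elements of the group ring with coefficients in a left ideal -/
noncomputable def coeffIdeal {R : Type} [Ring R] (H : Type) [Group H] (J : Ideal R) : Ideal (MonoidAlgebra R H) where
  carrier := {f | ∀ h, f.coeff h ∈ J}
  add_mem' := by
    intro a b ha hb h
    rw [MonoidAlgebra.coeff_add, Finsupp.add_apply]
    exact J.add_mem (ha h) (hb h)
  zero_mem' := by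
    intro h
    exact J.zero_mem
  smul_mem' := by
    classical
    intro c x hx h
    rw [smul_eq_mul, MonoidAlgebra.coeff_mul]
    refine J.sum_mem fun a _ => J.sum_mem fun b _ => ?_
    dsimp only
    split_ifs
    · exact J.mul_mem_left _ (hx _)
    · exact J.zero_mem

theorem mem_coeffIdeal {R : Type} [Ring R] {H : Type} [Group H] {J : Ideal R} {f : MonoidAlgebra R H} :
    f ∈ coeffIdeal H J ↔ ∀ h, f.coeff h ∈ J := Iff.rfl

theorem ker_pow_le {R R' H : Type} [Ring R] [Ring R'] [Group H] (π : R →+* R') (N : ℕ) :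
    (RingHom.ker (MonoidAlgebra.mapRingHom H π)) ^ N ≤ coeffIdeal H ((RingHom.ker π) ^ N) := by
  classical
  induction N with
  | zero =>
    intro x _ h
    rw [Submodule.pow_zero, Ideal.one_eq_top]
    exact Submodule.mem_top
  | succ N ih =>
    rw [Submodule.pow_succ, Submodule.pow_succ, Ideal.mul_le]
    intro r hr s hs h
    rw [MonoidAlgebra.coeff_mul]
    refine Ideal.sum_mem _ fun a _ => Ideal.sum_mem _ fun b _ => ?_
    dsimp only
    split_ifs
    · refine Ideal.mul_mem_mul (ih hr a) ?_
      rw [RingHom.mem_ker, ← MonoidAlgebra.coeff_mapRingHom, (RingHom.mem_ker).1 hs]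
      rfl
    · exact Ideal.zero_mem _

theorem s_GRN : S_GRN := by
  intro R R' H _ _ _ π hπ hN
  refine ⟨?_, ?_⟩
  · intro y
    induction y using MonoidAlgebra.induction_linear with
    | zero => exact ⟨0, map_zero _⟩
    | add a b ha hb =>
      obtain ⟨x, rfl⟩ := ha
      obtain ⟨x', rfl⟩ := hb
      exact ⟨x + x', map_add _ _ _⟩
    | single m r =>
      obtain ⟨r', rfl⟩ := hπ r
      exact ⟨MonoidAlgebra.single m r', MonoidAlgebra.mapRingHom_single _ _ _⟩
  · obtain ⟨N, hN⟩ := hN
    refine ⟨N, ?_⟩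
    rw [eq_bot_iff]
    intro f hf
    have h := ker_pow_le π N hf
    rw [hN, mem_coeffIdeal] at h
    rw [Ideal.mem_bot]
    ext a
    exact (Ideal.mem_bot).1 (h a)

end Pool.Agent.L7h25.NC
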