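import Pool.Agent.L7h59.NC.Def

/-!
# Project NC, part NIL1
-/

set_option autoImplicit false

namespace Pool.Agent.L7h25.NC

open Pool.Agent.L7h59.NC
open Pool.Agent.L7h59.TW (k1)
open Pool.Agent.Y69.FJ (K1 K1Rel mapGL)
open Matrix Polynomial

/-- unipotent elements have finite order if `p ^ m = 0` -/
theorem one_add_pow {A : Type*} [Ring A] {p m N : ℕ} (hp : p.Prime) (hpm : ((p ^ m : ℕ) : A) = 0) {x : A}
    (hx : x ^ N = 0) : (1 + x) ^ (p ^ (N + m)) = 1 := by
  have hN : N ≤ p ^ N := (Nat.lt_pow_self hp.one_lt).le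
  have hx' : x ^ (p ^ N) = 0 := pow_eq_zero_of_le hN hx
  obtain ⟨r, hr⟩ := exists_add_pow_prime_pow_eq hp (1 : ℤ[X]) X N
  have hd : (p : ℤ[X]) ∣ (1 + X) ^ (p ^ N) - (1 + X ^ (p ^ N)) := by
    refine ⟨1 * X * r, ?_⟩
    rw [hr, one_pow]
    ring
  obtain ⟨q, hq⟩ := dvd_sub_pow_of_dvd_sub hd m
  have h := congrArg (aeval x) hq
  rw [map_sub, map_mul, map_pow, map_pow, map_pow, map_pow, map_add, map_add, map_pow, map_one, aeval_X,
    map_natCast, hx', add_zero, one_pow, pow_succ, ← Nat.cast_pow, hpm, zero_mul, zero_mul, sub_eq_zero,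
    ← pow_mul, ← pow_add] at h
  exact h

section ker

variable {B C : Type} [Ring B] [Ring C] (π : B →+* C)

theorem mat_pow_mem {n : ℕ} {x : Matrix (Fin n) (Fin n) B} (hx : ∀ i j, x i j ∈ RingHom.ker π) (N : ℕ) :
    ∀ i j, (x ^ N) i j ∈ (RingHom.ker π) ^ N := by
  induction N with
  | zero =>
    intro i j
    rw [Submodule.pow_zero, Ideal.one_eq_top]
    exact Submodule.mem_top
  | succ N ih =>
    intro i j
    rw [Submodule.pow_succ, pow_succ, Matrix.mul_apply]
    exact Ideal.sum_mem _ fun l _ => Ideal.mul_mem_mul (ih i l) (hx l j)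

theorem mat_nil {N : ℕ} (hN : (RingHom.ker π) ^ N = ⊥) {n : ℕ} {x : Matrix (Fin n) (Fin n) B}
    (hx : x.map π = 0) : x ^ N = 0 := by
  ext i j
  have h := mat_pow_mem π (x := x) (fun i j => by
    rw [RingHom.mem_ker]
    exact congrFun (congrFun hx i) j) N i j
  rw [hN, Ideal.mem_bot] at h
  exact h

/-- invertible matrices lift -/
theorem exists_lift (hπ : Function.Surjective π) {N : ℕ} (hN : (RingHom.ker π) ^ N = ⊥) {n : ℕ}
    (M : (Matrix (Fin n) (Fin n) C)ˣ) : ∃ U : (Matrix (Fin n) (Fin n) B)ˣ, mapGL π U = M := by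
  have hlift : ∀ X : Matrix (Fin n) (Fin n) C, ∃ Y : Matrix (Fin n) (Fin n) B, Y.map π = X := by
    intro X
    choose Y hY using fun i j => hπ (X i j)
    exact ⟨Matrix.of Y, by ext i j; exact hY i j⟩
  obtain ⟨Y, hY⟩ := hlift (M : Matrix (Fin n) (Fin n) C)
  obtain ⟨Z, hZ⟩ := hlift ((M⁻¹ : (Matrix (Fin n) (Fin n) C)ˣ) : Matrix (Fin n) (Fin n) C)
  have hu : ∀ W : Matrix (Fin n) (Fin n) B, W.map π = 1 → IsUnit W := by
    intro W hW
    have h1 : (W - 1).map π = 0 := by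
      ext i j
      have := congrFun (congrFun hW i) j
      rw [Matrix.map_apply] at this
      rw [Matrix.map_apply, Matrix.sub_apply, map_sub, this, Matrix.one_apply, Matrix.one_apply,
        Matrix.zero_apply]
      split_ifs
      · rw [map_one, sub_self]
      · rw [map_zero, sub_self]
    have h2 : IsNilpotent (W - 1) := ⟨N, mat_nil π hN h1⟩
    have h3 := h2.isUnit_add_one
    rwa [sub_add_cancel] at h3
  have h1 : IsUnit (Y * Z) := hu _ (by rw [Matrix.map_mul, hY, hZ, ← Units.val_mul, mul_inv_cancel, Units.val_one])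
  have h2 : IsUnit (Z * Y) := hu _ (by rw [Matrix.map_mul, hY, hZ, ← Units.val_mul, inv_mul_cancel, Units.val_one])
  obtain ⟨u, hu1⟩ := h1
  obtain ⟨v, hv1⟩ := h2
  have e1 : Y * (Z * ((u⁻¹ : (Matrix (Fin n) (Fin n) B)ˣ) : Matrix (Fin n) (Fin n) B)) = 1 := by
    rw [← mul_assoc, ← hu1, Units.mul_inv]
  have e2 : (((v⁻¹ : (Matrix (Fin n) (Fin n) B)ˣ) : Matrix (Fin n) (Fin n) B) * Z) * Y = 1 := by
    rw [mul_assoc, ← hv1, Units.inv_mul]
  have e3 : ((v⁻¹ : (Matrix (Fin n) (Fin n) B)ˣ) : Matrix (Fin n) (Fin n) B) * Z =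
      Z * ((u⁻¹ : (Matrix (Fin n) (Fin n) B)ˣ) : Matrix (Fin n) (Fin n) B) := left_inv_eq_right_inv e2 e1
  refine ⟨⟨Y, _, e1, by rw [← e3]; exact e2⟩, ?_⟩
  apply Units.ext
  exact hY

end ker

section stab

variable {B C : Type} [Ring B] [Ring C]

/-- `U ⊕ 1` -/
def stab {n : ℕ} (U : (Matrix (Fin n) (Fin n) B)ˣ) : (Matrix (Fin (n + 1)) (Fin (n + 1)) B)ˣ where
  val := Matrix.reindex finSumFinEquiv finSumFinEquiv
    (Matrix.fromBlocks (U : Matrix (Fin n) (Fin n) B) 0 0 (1 : Matrix (Fin 1) (Fin 1) B))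
  inv := Matrix.reindex finSumFinEquiv finSumFinEquiv
    (Matrix.fromBlocks ((U⁻¹ : (Matrix (Fin n) (Fin n) B)ˣ) : Matrix (Fin n) (Fin n) B) 0 0
      (1 : Matrix (Fin 1) (Fin 1) B))
  val_inv := by
    rw [Matrix.reindex_apply, Matrix.reindex_apply, Matrix.submatrix_mul_equiv, Matrix.fromBlocks_multiply]
    simp
  inv_val := by
    rw [Matrix.reindex_apply, Matrix.reindex_apply, Matrix.submatrix_mul_equiv, Matrix.fromBlocks_multiply]
    simp

theorem map_stab (f : B →+* C) {n : ℕ} (U : (Matrix (Fin n) (Fin n) B)ˣ) :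
    ((mapGL f (stab U) : (Matrix (Fin (n + 1)) (Fin (n + 1)) C)ˣ) : Matrix (Fin (n + 1)) (Fin (n + 1)) C) =
      Matrix.reindex finSumFinEquiv finSumFinEquiv
        (Matrix.fromBlocks ((mapGL f U : (Matrix (Fin n) (Fin n) C)ˣ) : Matrix (Fin n) (Fin n) C) 0 0
          (1 : Matrix (Fin 1) (Fin 1) C)) := by
  ext i j
  show f ((Matrix.fromBlocks (U : Matrix (Fin n) (Fin n) B) 0 0 1)
    (finSumFinEquiv.symm i) (finSumFinEquiv.symm j)) =
    (Matrix.fromBlocks ((U : Matrix (Fin n) (Fin n) B).map f) 0 0 1)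
    (finSumFinEquiv.symm i) (finSumFinEquiv.symm j)
  rcases finSumFinEquiv.symm i with a | a <;> rcases finSumFinEquiv.symm j with b | b
  · rfl
  · exact map_zero f
  · exact map_zero f
  · rw [Matrix.fromBlocks_apply₂₂, Matrix.fromBlocks_apply₂₂, Subsingleton.elim a b,
      Matrix.one_apply_eq, Matrix.one_apply_eq, map_one]

theorem mk_mul' {n : ℕ} (M N : (Matrix (Fin n) (Fin n) B)ˣ) :
    K1.mk (M * N) = K1.mk M + K1.mk N := sub_eq_zero.1 (K1.mk_mul M N)

theorem mk_one (n : ℕ) : K1.mk (1 : (Matrix (Fin n) (Fin n) B)ˣ) = 0 := by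
  have h := mk_mul' (1 : (Matrix (Fin n) (Fin n) B)ˣ) 1
  rw [one_mul] at h
  exact left_eq_add.1 h

theorem mk_pow {n : ℕ} (M : (Matrix (Fin n) (Fin n) B)ˣ) (k : ℕ) : K1.mk (M ^ k) = k • K1.mk M := by
  induction k with
  | zero => rw [pow_zero, zero_smul, mk_one]
  | succ k ih => rw [pow_succ, mk_mul', ih, succ_nsmul]

theorem k1_ind {P : K1 B → Prop} (h0 : P 0) (h1 : ∀ (n : ℕ) (M : (Matrix (Fin n) (Fin n) B)ˣ), P (K1.mk M))
    (hn : ∀ x, P x → P (-x)) (ha : ∀ x y, P x → P y → P (x + y)) (x : K1 B) : P x := by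
  induction x using QuotientAddGroup.induction_on with
  | H z =>
    induction z using FreeAbelianGroup.induction_on with
    | zero => exact h0
    | of x => exact h1 x.1 x.2
    | neg x hx => exact hn _ (h1 x.1 x.2)
    | add x y hx hy => exact ha _ _ hx hy

end stab

theorem s_NIL1 : S_NIL1 := by
  classical
  intro B C _ _ π hπ hN hp
  obtain ⟨N, hN⟩ := hN
  obtain ⟨p, m, hp, hpm⟩ := hp
  have hmk : ∀ {n : ℕ} (M : (Matrix (Fin n) (Fin n) B)ˣ), K1.map π (K1.mk M) = K1.mk (mapGL π M) :=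
    fun M => K1.map_mk π M
  refine ⟨fun y => ?_, fun x hx => ?_⟩
  · change ∃ x, K1.map π x = y
    refine k1_ind (P := fun y => ∃ x, K1.map π x = y) ⟨0, map_zero _⟩ (fun n M => ?_) (fun y hy => ?_)
      (fun y z hy hz => ?_) y
    · obtain ⟨U, rfl⟩ := exists_lift π hπ hN M
      exact ⟨K1.mk U, hmk U⟩
    · obtain ⟨x, rfl⟩ := hy
      exact ⟨-x, map_neg _ _⟩
    · obtain ⟨x, rfl⟩ := hy
      obtain ⟨x', rfl⟩ := hz
      exact ⟨x + x', map_add _ _ _⟩
  · change K1.map π x = 0 at hx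
    let T : AddSubgroup (K1 B) := AddCommGroup.torsion (K1 B)
    have hT : ∀ z : K1 B, z ∈ T ↔ ∃ m : ℕ, 0 < m ∧ m • z = 0 := fun z =>
      isOfFinAddOrder_iff_nsmul_eq_zero
    let q : K1 B →+ K1 B ⧸ T := QuotientAddGroup.mk' T
    have hq : ∀ z, q z = 0 ↔ z ∈ T := fun z => QuotientAddGroup.eq_zero_iff z
    -- matrices which are trivial modulo the kernel are torsion
    have hA : ∀ {n : ℕ} (U : (Matrix (Fin n) (Fin n) B)ˣ), mapGL π U = 1 → q (K1.mk U) = 0 := by
      intro n U hU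
      rw [hq, hT]
      refine ⟨p ^ (N + m), pow_pos hp.pos _, ?_⟩
      rw [← mk_pow]
      have h1 : (((U : Matrix (Fin n) (Fin n) B)) - 1).map π = 0 := by
        have hU' : ((U : Matrix (Fin n) (Fin n) B)).map π = 1 := congrArg Units.val hU
        ext i j
        have := congrFun (congrFun hU' i) j
        rw [Matrix.map_apply] at this
        rw [Matrix.map_apply, Matrix.sub_apply, map_sub, this, Matrix.one_apply, Matrix.one_apply,
          Matrix.zero_apply]
        split_ifs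
        · rw [map_one, sub_self]
        · rw [map_zero, sub_self]
      have hpm' : ((p ^ m : ℕ) : Matrix (Fin n) (Fin n) B) = 0 := by
        rw [← Matrix.diagonal_natCast, hpm, Matrix.diagonal_zero]
      have h2 := one_add_pow hp hpm' (mat_nil π hN h1)
      rw [add_sub_cancel] at h2
      have h3 : U ^ (p ^ (N + m)) = 1 := by
        apply Units.ext
        rw [Units.val_pow_eq_pow_val, h2, Units.val_one]
      rw [h3, mk_one]
    have hBB : ∀ {n : ℕ} (U V : (Matrix (Fin n) (Fin n) B)ˣ), mapGL π U = mapGL π V →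
        q (K1.mk U) = q (K1.mk V) := by
      intro n U V h
      have h1 : mapGL π (U * V⁻¹) = 1 := by
        unfold mapGL at h ⊢
        rw [map_mul, map_inv, h, mul_inv_cancel]
      have h2 := hA _ h1
      have h3 : K1.mk U = K1.mk (U * V⁻¹) + K1.mk V := by
        rw [← mk_mul', inv_mul_cancel_right]
      rw [h3, map_add, h2, zero_add]
    choose L hL using fun (s : Σ n : ℕ, (Matrix (Fin n) (Fin n) C)ˣ) => exists_lift π hπ hN s.2
    let σ₀ : FreeAbelianGroup (Σ n : ℕ, (Matrix (Fin n) (Fin n) C)ˣ) →+ K1 B ⧸ T :=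
      FreeAbelianGroup.lift fun s => q (K1.mk (L s))
    have hσ₀ : ∀ s, σ₀ (FreeAbelianGroup.of s) = q (K1.mk (L s)) := fun s =>
      FreeAbelianGroup.lift_apply_of _ _
    have hle : AddSubgroup.closure (K1Rel C) ≤ σ₀.ker := by
      rw [AddSubgroup.closure_le]
      rintro z (⟨n, M, M', rfl⟩ | ⟨n, M, M', hM', rfl⟩)
      · show σ₀ _ = 0
        rw [map_sub, map_add, hσ₀, hσ₀, hσ₀, ← map_add, ← mk_mul', sub_eq_zero]
        apply hBB
        have e1 : mapGL π (L ⟨n, M⟩ * L ⟨n, M'⟩) = mapGL π (L ⟨n, M⟩) * mapGL π (L ⟨n, M'⟩) := map_mul _ _ _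
        rw [e1, hL, hL, hL]
      · show σ₀ _ = 0
        rw [map_sub, hσ₀, hσ₀, sub_eq_zero]
        have e1 : K1.mk (stab (L ⟨n, M⟩)) = K1.mk (L ⟨n, M⟩) :=
          sub_eq_zero.1 (K1.mk_stab _ _ rfl)
        rw [← e1]
        apply hBB
        rw [hL]
        apply Units.ext
        rw [map_stab, hL]
        exact hM'
    let σ : K1 C →+ K1 B ⧸ T := QuotientAddGroup.lift _ σ₀ hle
    have hσ : ∀ {n : ℕ} (U : (Matrix (Fin n) (Fin n) B)ˣ), σ (K1.mk (mapGL π U)) = q (K1.mk U) := by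
      intro n U
      have e1 : σ (K1.mk (mapGL π U)) = q (K1.mk (L ⟨n, mapGL π U⟩)) := by
        show QuotientAddGroup.lift _ _ _ (QuotientAddGroup.mk _) = _
        rw [QuotientAddGroup.lift_mk, hσ₀]
      rw [e1]
      apply hBB
      rw [hL]
    have hall : ∀ z : K1 B, σ (K1.map π z) = q z := by
      intro z
      refine k1_ind (P := fun z => σ (K1.map π z) = q z) ?_ (fun n M => ?_) (fun y hy => ?_)
        (fun y z hy hz => ?_) z
      · rw [map_zero, map_zero, map_zero]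
      · rw [hmk, hσ]
      · rw [map_neg, map_neg, map_neg, hy]
      · rw [map_add, map_add, map_add, hy, hz]
    have h1 := hall x
    rw [hx, map_zero] at h1
    exact (hT x).1 ((hq x).1 h1.symm)

end Pool.Agent.L7h25.NC
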